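import Mathlib
import Pool.Agent.P8H10.TW.Stm

/-!
# Project TW, part HEN: the roots of unity of order `p - 1` in `ℚ_p`
-/

set_option autoImplicit false

open Polynomial

namespace Pool.Agent.P8H76.TW

theorem toZMod_eq_zero_iff (p : ℕ) [Fact p.Prime] (x : ℤ_[p]) :
    PadicInt.toZMod x = 0 ↔ ‖x‖ < 1 := by
  rw [← RingHom.mem_ker, PadicInt.ker_toZMod, IsLocalRing.mem_maximalIdeal, PadicInt.mem_nonunits]

theorem hen : Pool.Agent.P8H10.TW.S_HEN := by
  intro p hp
  have hp1 : 1 < p := hp.out.one_lt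
  have hpos : 0 < p - 1 := by omega
  obtain ⟨g, hg⟩ := IsCyclic.exists_generator (α := (ZMod p)ˣ)
  have hord : orderOf g = p - 1 := by
    rw [orderOf_eq_card_of_forall_mem_zpowers hg, Nat.card_eq_fintype_card, ZMod.card_units]
  obtain ⟨a, ha⟩ := ZMod.ringHom_surjective (PadicInt.toZMod (p := p)) (g : ZMod p)
  have hgp : (g : ZMod p) ^ (p - 1) = 1 := by
    rw [← Units.val_pow_eq_pow_val, ← hord, pow_orderOf_eq_one, Units.val_one]
  have hF0 : (X ^ (p - 1) - 1 : ℤ_[p][X]).aeval a = a ^ (p - 1) - 1 := by simp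
  have hD0 : (X ^ (p - 1) - 1 : ℤ_[p][X]).derivative.aeval a
      = ((p - 1 : ℕ) : ℤ_[p]) * a ^ (p - 1 - 1) := by
    simp [derivative_X_pow]
  have hF1 : ‖(X ^ (p - 1) - 1 : ℤ_[p][X]).aeval a‖ < 1 := by
    rw [hF0, ← toZMod_eq_zero_iff, map_sub, map_pow, ha, hgp, map_one, sub_self]
  have hD1 : ‖(X ^ (p - 1) - 1 : ℤ_[p][X]).derivative.aeval a‖ = 1 := by
    have h1 : ¬ ‖(X ^ (p - 1) - 1 : ℤ_[p][X]).derivative.aeval a‖ < 1 := by
      rw [hD0, ← toZMod_eq_zero_iff, map_mul, map_pow, ha, map_natCast]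
      intro h
      rcases mul_eq_zero.1 h with h | h
      · rw [ZMod.natCast_eq_zero_iff] at h
        have := Nat.le_of_dvd hpos h
        omega
      · rw [← Units.val_pow_eq_pow_val] at h
        exact Units.ne_zero _ h
    exact le_antisymm (PadicInt.norm_le_one _) (not_lt.1 h1)
  obtain ⟨z, hz, hza, -, -⟩ := hensels_lemma (F := (X ^ (p - 1) - 1 : ℤ_[p][X])) (a := a)
    (by rw [hD1, one_pow]; exact hF1)
  have hz1 : z ^ (p - 1) = 1 := by
    have h2 : (X ^ (p - 1) - 1 : ℤ_[p][X]).aeval z = z ^ (p - 1) - 1 := by simp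
    rw [h2] at hz
    exact sub_eq_zero.1 hz
  rw [hD1] at hza
  have hzg : PadicInt.toZMod z = (g : ZMod p) := by
    have h3 := (toZMod_eq_zero_iff p (z - a)).2 hza
    rw [map_sub, sub_eq_zero] at h3
    rw [h3, ha]
  refine ⟨(z : ℚ_[p]), ?_, ?_⟩
  · have h4 := congrArg (fun y : ℤ_[p] => (y : ℚ_[p])) hz1
    simpa using h4
  · intro k hk
    have h5 : z ^ k = 1 := by
      have h6 : ((z ^ k : ℤ_[p]) : ℚ_[p]) = ((1 : ℤ_[p]) : ℚ_[p]) := by
        simpa using hk
      exact Subtype.ext h6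
    have h7 : g ^ k = 1 := by
      apply Units.ext
      have h8 := congrArg (PadicInt.toZMod (p := p)) h5
      rw [map_pow, hzg, map_one] at h8
      simpa using h8
    rw [← hord]
    exact orderOf_dvd_of_pow_eq_one h7

end Pool.Agent.P8H76.TW
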